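import Pool.Agent.BoltzM.Calc.Defs
import Pool.Agent.MP_187b32_an.PM.Vec

/-!
The statement about the imploding profile.
-/

set_option autoImplicit false

open Pool.Agent.BoltzM.BoltzC Finset
open scoped ContDiff

namespace Pool.Agent.BoltzM

open Pool.Agent.MP_187b32_an.PM (NF QF)

variable [Dim]

/-- The sound speed constant. -/
noncomputable def cq : ℝ := √((dd + 2) / dd)

/-- The smooth imploding profile with a weight `1 + F` for which the top order form is positive. -/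
def M1M : Prop :=
  ∃ (r lam c0 : ℝ) (U : Ix → E3 → ℝ) (C F : E3 → ℝ) (K : ℕ → ℝ),
    1 < (dd + 99 / 100) * (r - 1) ∧ r < 3 / 2 ∧ 0 < lam ∧ 0 < c0 ∧ (∀ i, ContDiff ℝ ∞ (U i)) ∧
    ContDiff ℝ ∞ C ∧ ContDiff ℝ ∞ F ∧
    (∀ y j, (r - 1) * U j y + ∑ i, (y i + U i y) * dX i (U j) y + (dd + 2) * C y * dX j C y = 0) ∧
    (∀ y, (r - 1) * C y + ∑ i, (y i + U i y) * dX i C y
      + (dd : ℝ)⁻¹ * C y * ∑ i, dX i (U i) y = 0) ∧
    (∀ (w : List Ix) j y,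
      |dXw w (U j) y| ≤ K w.length * (1 + ‖y‖ ^ 2) ^ ((1 - r - w.length) / 2)) ∧
    (∀ (w : List Ix) y,
      |dXw w C y| ≤ K w.length * (1 + ‖y‖ ^ 2) ^ ((1 - r - w.length) / 2)) ∧
    (∀ (w : List Ix) y,
      |dXw w F y| ≤ K w.length * (1 + ‖y‖ ^ 2) ^ ((-r - w.length) / 2)) ∧
    (∀ y, c0 * (1 + ‖y‖ ^ 2) ^ ((1 - r) / 2) ≤ C y) ∧ (∀ y, 0 ≤ F y) ∧
    ∀ (y : E3) (a : Ix → ℝ) (b : Ix → Ix → ℝ), lam * (1 + F y) * NF a b ≤
      QF (1 + F y - ∑ i, (y i + U i y) * dX i F y) (fun p i => (1 + F y) * dX p (U i) y)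
        (fun i => cq * C y * dX i F y) (fun i => cq * (1 + F y) * dX i C y) a b

lemma cq_sq : cq ^ 2 = (dd + 2) / dd := Real.sq_sqrt (by have := dr_pos; positivity)

end Pool.Agent.BoltzM
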