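import Pool.Agent.BoltzM.Prof.Radial
import Pool.Agent.MP_187b32_an.PM.All

/-!
The imploding profile in every dimension `d ≥ 3`.
-/

set_option autoImplicit false

namespace Pool.Agent.BoltzM

open BoltzC Pool.Agent.MP_187b32_an.PM

variable [Dim]

theorem m1M (h : 3 ≤ dd) : M1M := by
  rcases h.eq_or_lt with h3 | h4
  · obtain ⟨r, h1, h2, h5⟩ := rad3
    exact Pool.Agent.BoltzM.Prof.m1_lmi h3.symm h1 h2 h5
  · obtain ⟨r, h1, h2, h5⟩ := radC h4
    exact Pool.Agent.BoltzM.Prof.m1_crude h1 h2 h5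

end Pool.Agent.BoltzM
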