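import Pool.Agent.BoltzM.Calc.Class
import Pool.Agent.BoltzM.Prof.Defs
import Pool.Agent.MP_187b32_an.PM.Lmi

/-!
From radial profiles (functions of `z = |y| ^ 2`) to the statement `M1M` on Euclidean space.
-/

set_option autoImplicit false

open Set Pool.Agent.BoltzM.BoltzC Finset
open scoped ContDiff

namespace Pool.Agent.BoltzM.Prof

open Pool.Agent.MP_187b32_an.PD (SymZ)
open Pool.Agent.MP_187b32_an.PM

lemma symz_der {δ a : ℝ} {f : ℝ → ℝ} (h : SymZ δ a f) : SymZ δ (a - 1) (deriv f) := by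
  refine ⟨h.1.deriv_of_isOpen isOpen_Ioi (by simp), fun n => ?_⟩
  obtain ⟨K, hK⟩ := h.2 (n + 1)
  refine ⟨K, fun z hz => ?_⟩
  have := hK z hz
  rwa [Function.iterate_succ_apply, Nat.cast_succ, show a - (n + 1) = a - 1 - n by ring] at this

lemma symz_zero (δ a : ℝ) : SymZ δ a fun _ => 0 := by
  refine ⟨contDiffOn_const, fun n => ⟨0, fun z _ => ?_⟩⟩
  have : deriv^[n] (fun _ : ℝ => (0 : ℝ)) = fun _ => 0 := by
    induction n with
    | zero => rfl
    | succ n ih => rw [Function.iterate_succ_apply, deriv_const', ih]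
  simp [this]

lemma symz_hd {δ a : ℝ} {f : ℝ → ℝ} (h : SymZ δ a f) (hδ : 0 < δ) {z : ℝ} (hz : 0 ≤ z) :
    HasDerivAt f (deriv f z) z :=
  ((h.1.contDiffAt (Ioi_mem_nhds (by linarith))).differentiableAt (by simp)).hasDerivAt

variable [Dim]

lemma nsq (y : E3) : ‖y‖ ^ 2 = ∑ i, y i ^ 2 := by
  rw [EuclideanSpace.norm_sq_eq]
  simp

lemma line_apply (y : E3) (i j : Ix) (t : ℝ) :
    (y + t • ev i) j = y j + t * (if j = i then 1 else 0) := by
  simp [ev]

lemma hd_coord (y : E3) (i j : Ix) :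
    HasDerivAt (fun t : ℝ => (y + t • ev i) j) (if j = i then 1 else 0) 0 := by
  simp only [line_apply]
  simpa using ((hasDerivAt_id (0 : ℝ)).mul_const (if j = i then (1 : ℝ) else 0)).const_add (y j)

lemma hd_nsq (y : E3) (i : Ix) :
    HasDerivAt (fun t : ℝ => ‖y + t • ev i‖ ^ 2) (2 * y i) 0 := by
  simp only [nsq]
  have := HasDerivAt.fun_sum (u := Finset.univ) fun j _ => (hd_coord y i j).fun_pow 2
  refine this.congr_deriv ?_
  simp [mul_ite]

lemma hd_rad {δ a : ℝ} {f : ℝ → ℝ} (h : SymZ δ a f) (hδ : 0 < δ) (y : E3) (i : Ix) :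
    HasDerivAt (fun t : ℝ => f (‖y + t • ev i‖ ^ 2)) (deriv f (‖y‖ ^ 2) * (2 * y i)) 0 := by
  have h1 : HasDerivAt f (deriv f (‖y‖ ^ 2)) (‖y + (0 : ℝ) • ev i‖ ^ 2) := by
    simpa using symz_hd h hδ (sq_nonneg ‖y‖)
  exact h1.comp (0 : ℝ) (hd_nsq y i)

/-- The class generated by radial symbols and coordinates. -/
inductive Rs (δ : ℝ) : ℝ → (E3 → ℝ) → Prop
  | base {m : ℝ} {f : ℝ → ℝ} : SymZ δ (m / 2) f → Rs δ m fun y => f (‖y‖ ^ 2)
  | mulc {m m' : ℝ} {F : E3 → ℝ} (i : Ix) : Rs δ m F → m' = m + 1 → Rs δ m' fun y => y i * F y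
  | add {m : ℝ} {F G : E3 → ℝ} : Rs δ m F → Rs δ m G → Rs δ m fun y => F y + G y

lemma Rs.cd {δ m : ℝ} {F : E3 → ℝ} (hδ : 0 < δ) (h : Rs δ m F) : ContDiff ℝ ∞ F := by
  induction h with
  | base hf =>
    exact hf.1.comp_contDiff (contDiff_norm_sq ℝ) fun y =>
      lt_of_lt_of_le (neg_lt_zero.2 hδ) (sq_nonneg _)
  | mulc i _ _ ih => exact (EuclideanSpace.proj (𝕜 := ℝ) i).contDiff.mul ih
  | add _ _ ih1 ih2 => exact ih1.add ih2

lemma abs_coord_le (y : E3) (i : Ix) : |y i| ≤ (1 + ‖y‖ ^ 2) ^ (1 / 2 : ℝ) := by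
  rw [← Real.sqrt_eq_rpow]
  apply Real.abs_le_sqrt
  rw [nsq]
  have := Finset.single_le_sum (f := fun j => y j ^ 2) (fun j _ => sq_nonneg (y j))
    (Finset.mem_univ i)
  linarith

lemma Rs.bd {δ m : ℝ} {F : E3 → ℝ} (h : Rs δ m F) :
    ∃ K : ℝ, ∀ y, |F y| ≤ K * (1 + ‖y‖ ^ 2) ^ (m / 2) := by
  induction h with
  | base hf =>
    obtain ⟨K, hK⟩ := hf.2 0
    exact ⟨K, fun y => by simpa using hK _ (sq_nonneg ‖y‖)⟩
  | @mulc m m' F i _ e ih =>
    obtain ⟨K, hK⟩ := ih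
    refine ⟨K, fun y => ?_⟩
    have hp : (0 : ℝ) < 1 + ‖y‖ ^ 2 := by positivity
    rw [abs_mul, e, add_div, Real.rpow_add hp, ← mul_assoc, mul_comm]
    exact mul_le_mul (hK y) (abs_coord_le y i) (abs_nonneg _) ((abs_nonneg _).trans (hK y))
  | add _ _ ih1 ih2 =>
    obtain ⟨K, hK⟩ := ih1
    obtain ⟨L, hL⟩ := ih2
    exact ⟨K + L, fun y => (abs_add_le _ _).trans (by rw [add_mul]; exact add_le_add (hK y) (hL y))⟩

lemma Rs.congr {δ m m' : ℝ} {F G : E3 → ℝ} (h : Rs δ m F) (e : m = m') (e' : ∀ y, F y = G y) :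
    Rs δ m' G := by
  obtain rfl : F = G := funext e'
  exact e ▸ h

lemma Rs.hd {δ m : ℝ} {F : E3 → ℝ} (hδ : 0 < δ) (h : Rs δ m F) (i : Ix) :
    ∃ G, Rs δ (m - 1) G ∧ ∀ y, HasDerivAt (fun t : ℝ => F (y + t • ev i)) (G y) 0 := by
  induction h with
  | @base m f hf =>
    have h1 : Rs δ (m - 1) fun y => y i * deriv f (‖y‖ ^ 2) :=
      Rs.mulc i (Rs.base (m := m - 2) (by rw [show (m - 2) / 2 = m / 2 - 1 by ring]; exact symz_der hf)) (by ring)
    exact ⟨_, h1.add h1, fun y => (hd_rad hf hδ y i).congr_deriv (by ring)⟩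
  | @mulc m m' F j hF e ih =>
    obtain ⟨G, hG, hd⟩ := ih
    have h1 : Rs δ (m' - 1) fun y => y j * G y := Rs.mulc j hG (by rw [e]; ring)
    have h2 : Rs δ (m' - 1) fun y => (if j = i then 1 else 0) * F y := by
      split_ifs
      · exact hF.congr (by rw [e]; ring) (by simp)
      · exact (Rs.base (symz_zero δ _)).congr rfl (by simp)
    exact ⟨_, h2.add h1, fun y => ((hd_coord y i j).fun_mul (hd y)).congr_deriv (by simp)⟩
  | add _ _ ih1 ih2 =>
    obtain ⟨F', hF, h1⟩ := ih1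
    obtain ⟨G', hG, h2⟩ := ih2
    exact ⟨_, hF.add hG, fun y => (h1 y).fun_add (h2 y)⟩

lemma Rs.dX {δ m : ℝ} {F : E3 → ℝ} (hδ : 0 < δ) (h : Rs δ m F) (i : Ix) :
    Rs δ (m - 1) (dX i F) := by
  obtain ⟨G, hG, hd⟩ := h.hd hδ i
  exact hG.congr rfl fun y => (dX_eq (hd y).hd).symm

lemma Rs.dXw {δ : ℝ} (hδ : 0 < δ) (w : List Ix) : ∀ {m : ℝ} {F : E3 → ℝ}, Rs δ m F →
    Rs δ (m - w.length) (dXw w F) := by
  induction w with
  | nil => exact fun h => h.congr (by simp) fun _ => rfl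
  | cons i w ih =>
    intro m F h
    exact (ih (h.dX hδ i)).congr (by simp; ring) fun _ => rfl

lemma Rs.words {δ m : ℝ} (hδ : 0 < δ) {ι : Type} [Finite ι] {F : ι → E3 → ℝ}
    (h : ∀ j, Rs δ m (F j)) : ∃ K : ℕ → ℝ, ∀ (w : List Ix) j y,
      |BoltzC.dXw w (F j) y| ≤ K w.length * (1 + ‖y‖ ^ 2) ^ ((m - w.length) / 2) := by
  choose K hK using fun (p : List Ix × ι) => (Rs.dXw hδ p.1 (h p.2)).bd
  have hb : ∀ n : ℕ, ∃ L : ℝ, ∀ p : List Ix × ι, p.1.length = n → K p ≤ L := fun n => by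
    have hf : ({l : List Ix | l.length = n} ×ˢ (Set.univ : Set ι)).Finite :=
      (List.finite_length_eq Ix n).prod Set.finite_univ
    obtain ⟨L, hL⟩ := (hf.image K).bddAbove
    exact ⟨L, fun p hp => hL ⟨p, ⟨hp, trivial⟩, rfl⟩⟩
  choose L hL using hb
  refine ⟨L, fun w j y => (hK (w, j) y).trans ?_⟩
  exact mul_le_mul_of_nonneg_right (hL _ (w, j) rfl) (by positivity)

lemma sum_a (y : Ix → ℝ) (a b : ℝ) (j : Ix) :
    ∑ i, (y i + y i * a) * ((if j = i then 1 else 0) * a + y j * (b * (2 * y i))) =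
      y j * ((1 + a) * (a + 2 * (∑ i, y i ^ 2) * b)) := by
  have : ∀ i, (y i + y i * a) * ((if j = i then 1 else 0) * a + y j * (b * (2 * y i))) =
      (if j = i then y i * ((1 + a) * a) else 0) + y j * (1 + a) * 2 * b * y i ^ 2 := fun i => by
    split_ifs <;> ring
  simp only [this, Finset.sum_add_distrib, Finset.sum_ite_eq, Finset.mem_univ, if_true,
    ← Finset.mul_sum]
  ring

lemma sum_b (y : Ix → ℝ) (a d : ℝ) :
    ∑ i, (y i + y i * a) * (d * (2 * y i)) = 2 * (∑ i, y i ^ 2) * (1 + a) * d := by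
  rw [Finset.mul_sum, Finset.sum_mul, Finset.sum_mul]
  exact Finset.sum_congr rfl fun i _ => by ring

lemma sum_c (y : Ix → ℝ) (a b : ℝ) :
    ∑ i, (a + y i * (b * (2 * y i))) =
      dd * a + 2 * (∑ i, y i ^ 2) * b := by
  rw [Finset.sum_add_distrib, Finset.mul_sum, Finset.sum_mul, ← sum_const_Ix]
  congr 1
  exact Finset.sum_congr rfl fun i _ => by ring

lemma sum_d (y ξ : Ix → ℝ) (a b : ℝ) :
    ∑ p, ∑ i, ξ p * ξ i * ((if i = p then 1 else 0) * a + y i * (b * (2 * y p))) =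
      a * ∑ i, ξ i ^ 2 + 2 * b * (∑ i, ξ i * y i) ^ 2 := by
  have : ∀ p i, ξ p * ξ i * ((if i = p then 1 else 0) * a + y i * (b * (2 * y p))) =
      (if i = p then a * (ξ p * ξ i) else 0) + 2 * b * (ξ p * y p * (ξ i * y i)) := fun p i => by
    split_ifs <;> ring
  simp only [this, Finset.sum_add_distrib, Finset.sum_ite_eq', Finset.mem_univ, if_true,
    ← Finset.mul_sum, ← Finset.sum_mul, sq]

theorem m1_core {r lam c0 δ : ℝ} {w C f : ℝ → ℝ} (hr1 : 1 < (dd + 99 / 100) * (r - 1))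
    (hr2 : r < 3 / 2) (hlam : 0 < lam) (hc0 : 0 < c0) (hδ : 0 < δ) (hw : SymZ δ (-r / 2) w)
    (hC : SymZ δ ((1 - r) / 2) C) (hf : SymZ δ (-r / 2) f)
    (e1 : ∀ z, 0 ≤ z → (r - 1) * w z + (1 + w z) * (w z + 2 * z * deriv w z)
      + 2 * (dd + 2) * C z * deriv C z = 0)
    (e2 : ∀ z, 0 ≤ z → (r - 1) * C z + 2 * z * (1 + w z) * deriv C z
      + 1 / dd * C z * (dd * w z + 2 * z * deriv w z) = 0)
    (hlow : ∀ z, 0 ≤ z → c0 * (1 + z) ^ ((1 - r) / 2) ≤ C z) (hf0 : ∀ z, 0 ≤ z → 0 ≤ f z)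
    (hq : ∀ (y : E3) (z : ℝ), z = ‖y‖ ^ 2 → ∀ (a : Ix → ℝ) (b : Ix → Ix → ℝ),
      lam * (1 + f z) * NF a b ≤ QF (1 + f z - 2 * z * (1 + w z) * deriv f z)
        (fun p i => (1 + f z) * ((if i = p then 1 else 0) * w z + y i * (deriv w z * (2 * y p))))
        (fun i => cq * C z * (deriv f z * (2 * y i)))
        (fun i => cq * (1 + f z) * (deriv C z * (2 * y i))) a b) : M1M := by
  have rU : ∀ j : Ix, Rs δ (1 - r) fun y => y j * w (‖y‖ ^ 2) := fun j =>
    Rs.mulc j (Rs.base (m := -r) hw) (by ring)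
  have rC : Rs δ (1 - r) fun y => C (‖y‖ ^ 2) := Rs.base hC
  have rF : Rs δ (-r) fun y => f (‖y‖ ^ 2) := Rs.base hf
  have dU : ∀ (i j : Ix) (y : E3), dX i (fun y : E3 => y j * w (‖y‖ ^ 2)) y =
      (if j = i then 1 else 0) * w (‖y‖ ^ 2) + y j * (deriv w (‖y‖ ^ 2) * (2 * y i)) :=
    fun i j y => dX_eq (((hd_coord y i j).fun_mul (hd_rad hw hδ y i)).congr_deriv (by simp)).hd
  have dC : ∀ (i : Ix) (y : E3), dX i (fun y : E3 => C (‖y‖ ^ 2)) y =
      deriv C (‖y‖ ^ 2) * (2 * y i) := fun i y => dX_eq (hd_rad hC hδ y i).hd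
  have dF : ∀ (i : Ix) (y : E3), dX i (fun y : E3 => f (‖y‖ ^ 2)) y =
      deriv f (‖y‖ ^ 2) * (2 * y i) := fun i y => dX_eq (hd_rad hf hδ y i).hd
  obtain ⟨K1, hK1⟩ := Rs.words hδ rU
  obtain ⟨K2, hK2⟩ := Rs.words hδ (ι := Unit) (F := fun _ y => C (‖y‖ ^ 2)) fun _ => rC
  obtain ⟨K3, hK3⟩ := Rs.words hδ (ι := Unit) (F := fun _ y => f (‖y‖ ^ 2)) fun _ => rF
  refine ⟨r, lam, c0, fun j y => y j * w (‖y‖ ^ 2), fun y => C (‖y‖ ^ 2), fun y => f (‖y‖ ^ 2),
    fun n => max (max (K1 n) (K2 n)) (K3 n), hr1, hr2, hlam, hc0, fun j => (rU j).cd hδ,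
    rC.cd hδ, rF.cd hδ, fun y j => ?_, fun y => ?_, fun u j y => (hK1 u j y).trans ?_,
    fun u y => (hK2 u () y).trans ?_, fun u y => (hK3 u () y).trans ?_,
    fun y => hlow _ (sq_nonneg _), fun y => hf0 _ (sq_nonneg _), fun y a b => ?_⟩
  · have h1 := e1 _ (sq_nonneg ‖y‖)
    simp only [dU, dC]
    rw [sum_a, ← nsq y]
    linear_combination y j * h1
  · have h1 := e2 _ (sq_nonneg ‖y‖)
    simp only [dU, dC, if_true, one_mul]
    rw [sum_b, sum_c, ← nsq y, ← one_div]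
    linear_combination h1
  · exact mul_le_mul_of_nonneg_right ((le_max_left _ _).trans (le_max_left _ _)) (by positivity)
  · exact mul_le_mul_of_nonneg_right ((le_max_right _ _).trans (le_max_left _ _)) (by positivity)
  · exact mul_le_mul_of_nonneg_right (le_max_right _ _) (by positivity)
  · simp only [dU, dC, dF]
    rw [sum_b, ← nsq y]
    exact hq y _ rfl a b

lemma exists_unit (y : E3) : ∃ n : Ix → ℝ, ∑ i, n i ^ 2 = 1 ∧ ∀ i, y i = ‖y‖ * n i := by
  by_cases h : y = 0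
  · refine ⟨fun i => if i = 0 then 1 else 0, by simp, fun i => by simp [h]⟩
  · have h0 : ‖y‖ ≠ 0 := norm_ne_zero_iff.2 h
    refine ⟨fun i => y i / ‖y‖, ?_, fun i => by field_simp⟩
    simp only [div_pow]
    rw [← Finset.sum_div, ← nsq, div_self (pow_ne_zero _ h0)]

omit [Dim] in
lemma hd_ph (x : ℝ) :
    HasDerivAt (fun x => ph x - 1) (-(59 * x) / (x ^ 2 + 1 / 2) ^ 2) x := by
  have h0 : x ^ 2 + 1 / 2 ≠ 0 := by positivity
  have h1 := hasDerivAt_pow 2 x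
  refine (((h1.add_const 30).fun_div (h1.add_const (1 / 2)) h0).sub_const 1).congr_deriv ?_
  congr 1
  norm_num
  ring

theorem m1_lmi (h3 : dd = 3) {r : ℝ} (hr1 : 12507 / 10000 ≤ r) (hr2 : r < 3 / 2)
    (h : RadP Lmi 3 r) : M1M := by
  obtain ⟨lam, c0, δ, w, C, S, hlam, hc0, hδ, hw, hC, e1, e2, hlow, hg, hS⟩ := h
  have d3 : (dd : ℝ) = 3 := by exact_mod_cast h3
  have hf : SymZ δ (-r / 2) fun z => ph (S z) - 1 := by
    refine hg (fun x => ph x - 1) (fun q => 59 / 2 * q ^ 3 / (1 + q ^ 4 / 2)) ?_ ?_ fun x hx => ?_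
    · unfold ph
      exact (ContDiff.div (by fun_prop) (by fun_prop) fun x => by positivity).sub contDiff_const
    · exact ContDiffOn.div (by fun_prop) (by fun_prop) fun x _ => by positivity
    · have hx0 : 0 < √x := Real.sqrt_pos.2 (by linarith)
      have : x = √x ^ 2 := (Real.sq_sqrt (by linarith)).symm
      generalize √x = t at *
      subst this
      unfold ph
      field_simp
      ring
  refine m1_core (by rw [d3]; linarith) hr2 hlam hc0 hδ hw hC hf (by simpa only [d3] using e1)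
    (by simpa only [d3] using e2) hlow (fun z _ => ?_) fun y z hz a b => ?_
  · rw [sub_nonneg, ph, le_div_iff₀ (by positivity)]
    linarith
  have z0 : 0 ≤ z := hz ▸ sq_nonneg _
  obtain ⟨s0, s1, s2, s3, l1, l2, l3, l4⟩ := hS z z0
  have C0 : 0 < C z := lt_of_lt_of_le (by positivity) (hlow z z0)
  obtain ⟨n, hn, hy⟩ := exists_unit y
  have df := ((hd_ph (S z)).comp z s3).deriv
  rw [show ((fun x => ph x - 1) ∘ S) = fun z => ph (S z) - 1 from rfl] at df
  have hq : cq ^ 2 = 5 / 3 := by rw [cq_sq, d3]; norm_num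
  rw [df]
  generalize S z = x at *
  generalize deriv w z = w' at *
  generalize w z = v at *
  generalize deriv C z = c' at *
  generalize C z = c at *
  generalize ‖y‖ = R at *
  obtain ⟨s, hs⟩ : ∃ s, s = cq * R / (5 * c) := ⟨_, rfl⟩
  have ss : s ^ 2 = x / 3 := by
    rw [hs, div_pow, mul_pow, hq, ← hz, ← s1]
    field_simp
    norm_num
  obtain ⟨mu, hmu⟩ : ∃ mu, mu = 2 * (3 + 2) * c * c' := ⟨_, rfl⟩
  rw [← hmu] at l1 l2 l3 l4 s2 ⊢
  have key := radial_pos (ι := Ix) (by simp [h3]) hn (g := s * pp x mu) (c := s * mu) l1 l2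
    (by rw [← mul_add, mul_pow, mul_pow, ss]; convert l3 using 3 <;> ring)
    (by rw [mul_pow, mul_pow, ss]; convert l4 using 3 <;> ring) a b
  have e := QF_eq (ι := Ix) (ph x) v lam (1 + x * pp x mu * (1 + v))
    (fun p i => (A1 lam x v (v + 2 * z * w') mu - A2 lam x v mu) * (n p * n i))
    (fun i => -(s * pp x mu) * n i) (fun i => s * mu * n i) a b
  have p0 : 0 < ph x := by unfold ph; positivity
  have x1 : x ^ 2 + 1 / 2 ≠ 0 := by positivity
  have x2 : x ^ 2 + 30 ≠ 0 := by positivity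
  rw [show 1 + x * pp x mu * (1 + v) + v - lam = A2 lam x v mu by unfold A2; ring] at e
  rw [show 1 + (ph x - 1) = ph x by ring]
  refine ((le_add_of_nonneg_left (mul_nonneg p0.le key)).trans e.ge).trans (le_of_eq ?_)
  congr 1
  · unfold ph pp
    rw [← s1]
    field_simp
    ring
  · funext p i
    rw [hy i, hy p, A1, A2, hz]
    ring
  · funext i
    rw [hy, hs]
    unfold ph pp
    field_simp
    ring
  · funext i
    rw [hy, hs, hmu]
    field_simp
    ring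

theorem m1_crude {r : ℝ} (hr1 : 1 < (dd + 99 / 100) * (r - 1)) (hr2 : r < 3 / 2)
    (h : RadP Crude dd r) : M1M := by
  obtain ⟨lam, c0, δ, w, C, S, hlam, hc0, hδ, hw, hC, e1, e2, hlow, -, hS⟩ := h
  refine m1_core hr1 hr2 hlam hc0 hδ hw hC (symz_zero δ _) e1 e2 hlow (fun z _ => le_rfl)
    fun y z hz a b => ?_
  have z0 : 0 ≤ z := hz ▸ sq_nonneg _
  obtain ⟨s0, s1, -, -, -, l1, l2, l3, l4⟩ := hS z z0
  have C0 : 0 < C z := lt_of_lt_of_le (by positivity) (hlow z z0)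
  simp only [deriv_const', add_zero, mul_zero, zero_mul, sub_zero, mul_one, one_mul]
  generalize S z = x at *
  generalize deriv w z = w' at *
  generalize w z = v at *
  generalize deriv C z = c' at *
  generalize C z = c at *
  have d0 := dr_pos
  have e3 : ∑ i, (cq * (c' * (2 * y i))) ^ 2 = (dd + 2) / dd * (4 * z * c' ^ 2) := by
    rw [hz, nsq, ← cq_sq, Finset.mul_sum, Finset.sum_mul, Finset.mul_sum]
    exact Finset.sum_congr rfl fun i _ => by ring
  obtain ⟨m, hm⟩ : ∃ m, m = √((dd + 2) * (4 * z * c' ^ 2)) := ⟨_, rfl⟩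
  have m0 : 0 ≤ m := hm ▸ Real.sqrt_nonneg _
  have m1 : m ^ 2 = (dd + 2) * (4 * z * c' ^ 2) := hm ▸ Real.sq_sqrt (by positivity)
  have m2 : m ^ 2 = x * (2 * (dd + 2) * c * c') ^ 2 := by rw [m1, ← s1]; ring
  have h3 : m ≤ 1 + v - lam := abs_le_of_sq_le_sq' (by nlinarith [sq_nonneg m]) (by linarith) |>.2
  have h4 : m ≤ 1 + (v + 2 * z * w') - lam :=
    abs_le_of_sq_le_sq' (by nlinarith [sq_nonneg m]) (by linarith) |>.2
  refine crude_pos m0 ?_ ?_ (fun ξ => ?_) a b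
  · rw [e3, m1]
    simp only [Fintype.card_fin]
    apply le_of_eq
    field_simp
  · rw [e3, m1]
    refine mul_le_mul_of_nonneg_right (div_le_self (by positivity) (by linarith [two_le_dr]))
      (by positivity)
  · rw [sum_d]
    have c1 := Finset.sum_mul_sq_le_sq_mul_sq Finset.univ (fun i => ξ i) fun i => y i
    rw [← nsq y, ← hz] at c1
    have hx : 0 ≤ ∑ i, ξ i ^ 2 := by positivity
    rcases le_total 0 w' with hb | hb
    · nlinarith [mul_nonneg hb (sq_nonneg (∑ i, ξ i * y i)), mul_nonneg (sub_nonneg.2 h3) hx]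
    · nlinarith [mul_nonneg (neg_nonneg.2 hb) (sub_nonneg.2 c1), mul_nonneg (sub_nonneg.2 h4) hx]

end Pool.Agent.BoltzM.Prof
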